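import Pool.Agent.THS.StmtsG

/-!
# Squad THS, row PRP (proportional points)
-/

namespace Pool.Agent.THS.H42

open scoped BigOperators

theorem prp : PrpStatement := by
  intro K _ g N α β T x h i j l hl
  obtain ⟨l1, -, h1⟩ := h.rel j i
  obtain ⟨l2, hl2, h2⟩ := h.rel i i
  obtain ⟨e, he⟩ := Function.ne_iff.1 (h.T0 (j + i))
  have he' : T (j + i) e ≠ 0 := he
  refine ⟨l1 * l / l2 * T (i + i) e / T (j + i) e, fun d => ?_⟩
  have e0 : e - d + d = e := sub_add_cancel e d
  have a1 := h1 (e - d) d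
  have a2 := h2 (e - d) d
  rw [e0] at a1 a2
  rw [sub_self] at a2
  have a3 : ∑ b : Fin g → ZMod 2, (sgn b e : K) * (x j (e - d, b) * x i (e - d, b)) =
      l * ∑ b : Fin g → ZMod 2, (sgn b e : K) * (x i (e - d, b) * x i (e - d, b)) := by
    rw [Finset.mul_sum]
    refine Finset.sum_congr rfl fun b _ => ?_
    rw [hl (e - d, b)]
    ring
  rw [a3] at a1
  have a4 : T (j + i) e * T (j - i) d = l1 * l / l2 * (T (i + i) e * T 0 d) := by
    rw [a1, a2]
    field_simp
  have a5 : T (j - i) d = (T (j + i) e * T (j - i) d) / T (j + i) e := by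
    field_simp
  rw [a5, a4]
  ring

end Pool.Agent.THS.H42
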